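import Mathlib
import Pool.Agent.H24.OPP.TTDefs

/-!
# Topological theorem for MP_a0dfcb_an (a nuclear C*-algebra not isomorphic to its opposite)

Cochains are functions `List X → ℤ`; chains are additive functionals on normalised cochains.
Paper proof: section 4 of OPP_PLAN.
-/

set_option autoImplicit false

namespace Pool.OPP

open scoped Topology Uniformity

/-! ## Cochains -/

section
variable {X : Type}

/-- coboundary: `del φ l = φ (∂ l)` -/
def del : (List X → ℤ) → List X → ℤ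
  | _, [] => 0
  | φ, x :: l => φ l - del (fun l' => φ (x :: l')) l

/-- dual of the prism operator: `pri f g φ (x_0..x_d) = ∑_a (-1)^a φ (f x_0..f x_a, g x_a..g x_d)` -/
def pri (f g : X → X) : (List X → ℤ) → List X → ℤ
  | _, [] => 0
  | φ, x :: l => φ (f x :: g x :: l.map g) - pri f g (fun l' => φ (f x :: l')) l

/-- pull back -/
def pb (f : X → X) (φ : List X → ℤ) : List X → ℤ := fun l => φ (l.map f)

/-- many prisms -/
def fil (f : ℕ → X → X) (L : ℕ) (φ : List X → ℤ) : List X → ℤ :=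
  fun l => ∑ q ∈ Finset.range L, pri (f q) (f (q + 1)) φ l

/-- cup products -/
def cup0 (u : X → ℤ) (φ : List X → ℤ) : List X → ℤ
  | x :: l => u x * φ (x :: l)
  | _ => 0

def cup1 (a : X → X → ℤ) (φ : List X → ℤ) : List X → ℤ
  | x :: y :: l => a x y * φ (y :: l)
  | _ => 0

def cup2 (e : X → X → X → ℤ) (φ : List X → ℤ) : List X → ℤ
  | x :: y :: z :: l => e x y z * φ (z :: l)
  | _ => 0

/-- the unit cochain -/
def one0 : List X → ℤ
  | [_] => 1
  | _ => 0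

theorem del_add (φ ψ : List X → ℤ) (l : List X) : del (φ + ψ) l = del φ l + del ψ l := by
  induction l generalizing φ ψ with
  | nil => simp [del]
  | cons x l ih =>
    simp only [del, Pi.add_apply]
    have := ih (fun l' => φ (x :: l')) (fun l' => ψ (x :: l'))
    rw [show (fun l' => φ (x :: l') + ψ (x :: l')) = (fun l' => φ (x :: l')) + (fun l' => ψ (x :: l'))
      from rfl, this]
    ring

theorem pri_add (f g : X → X) (φ ψ : List X → ℤ) (l : List X) :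
    pri f g (φ + ψ) l = pri f g φ l + pri f g ψ l := by
  induction l generalizing φ ψ with
  | nil => simp [pri]
  | cons x l ih =>
    simp only [pri, Pi.add_apply]
    have := ih (fun l' => φ (f x :: l')) (fun l' => ψ (f x :: l'))
    rw [show (fun l' => φ (f x :: l') + ψ (f x :: l')) = (fun l' => φ (f x :: l')) +
      (fun l' => ψ (f x :: l')) from rfl, this]
    ring

/-- no degenerate tuples (the empty list is allowed) -/
def Nr (φ : List X → ℤ) : Prop := ∀ l₁ x l₂, φ (l₁ ++ x :: x :: l₂) = 0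

theorem Nr.cons {φ : List X → ℤ} (h : Nr φ) (y : X) : Nr (fun l => φ (y :: l)) :=
  fun l₁ x l₂ => h (y :: l₁) x l₂

theorem Nr.pb {φ : List X → ℤ} (h : Nr φ) (f : X → X) : Nr (pb f φ) := by
  intro l₁ x l₂
  simp only [Pool.OPP.pb, List.map_append, List.map_cons]
  exact h _ _ _

theorem del_cons_zero (l : List X) : del (fun _ => (0 : ℤ)) l = 0 := by
  induction l with
  | nil => rfl
  | cons x l ih => simp only [del, ih]; ring

theorem pri_cons_zero (f g : X → X) (l : List X) : pri f g (fun _ => (0 : ℤ)) l = 0 := by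
  induction l with
  | nil => rfl
  | cons x l ih => simp only [pri, ih]; ring

theorem Nr.del {φ : List X → ℤ} (h : Nr φ) : Nr (del φ) := by
  intro l₁
  induction l₁ generalizing φ with
  | nil =>
    intro x l₂
    simp only [List.nil_append, Pool.OPP.del]
    have h0 : (fun l' => φ (x :: x :: l')) = fun _ => (0 : ℤ) := by
      funext l'; exact h [] x l'
    rw [h0, del_cons_zero]
    ring
  | cons y l₁ ih =>
    intro x l₂
    simp only [List.cons_append, Pool.OPP.del]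
    rw [h l₁ x l₂, ih (h.cons y) x l₂]
    ring

theorem Nr.pri {φ : List X → ℤ} (h : Nr φ) (f g : X → X) : Nr (pri f g φ) := by
  intro l₁
  induction l₁ generalizing φ with
  | nil =>
    intro x l₂
    simp only [List.nil_append, Pool.OPP.pri]
    have h0 : (fun l' => φ (f x :: f x :: l')) = fun _ => (0 : ℤ) := by
      funext l'; exact h [] (f x) l'
    rw [h0, pri_cons_zero]
    have h1 : φ (f x :: g x :: List.map g (x :: l₂)) = 0 := by
      have := h [f x] (g x) (List.map g l₂)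
      simpa using this
    have h2 : φ (f x :: f x :: g x :: List.map g l₂) = 0 := h [] (f x) _
    rw [h1, h2]
    ring
  | cons y l₁ ih =>
    intro x l₂
    simp only [List.cons_append, Pool.OPP.pri]
    have h1 : φ (f y :: g y :: List.map g (l₁ ++ x :: x :: l₂)) = 0 := by
      have := h (f y :: g y :: List.map g l₁) (g x) (List.map g l₂)
      simpa using this
    rw [h1, ih (h.cons (f y)) x l₂]
    ring

/-- normalised cochains -/
def NorS (X : Type) : AddSubgroup (List X → ℤ) where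
  carrier := {φ | φ [] = 0 ∧ Nr φ}
  zero_mem' := ⟨rfl, fun _ _ _ => rfl⟩
  add_mem' := by
    rintro φ ψ ⟨h1, h2⟩ ⟨h3, h4⟩
    refine ⟨by simp [h1, h3], fun l₁ x l₂ => ?_⟩
    simp [h2 l₁ x l₂, h4 l₁ x l₂]
  neg_mem' := by
    rintro φ ⟨h1, h2⟩
    refine ⟨by simp [h1], fun l₁ x l₂ => ?_⟩
    simp [h2 l₁ x l₂]

/-- the group of normalised cochains -/
abbrev NC (X : Type) := ↥(NorS X)

/-- coboundary on normalised cochains -/
def dN (X : Type) : AddMonoid.End (NC X) :=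
  AddMonoidHom.mk' (fun φ => ⟨del φ.1, rfl, φ.2.2.del⟩) (by
    intro φ ψ
    apply Subtype.ext
    funext l
    exact del_add φ.1 ψ.1 l)

/-- pull back on normalised cochains -/
def pN (f : X → X) : AddMonoid.End (NC X) :=
  AddMonoidHom.mk' (fun φ => ⟨pb f φ.1, φ.2.1, φ.2.2.pb f⟩) (by
    intro φ ψ
    rfl)

/-- fill on normalised cochains -/
def fN (f : ℕ → X → X) (L : ℕ) : AddMonoid.End (NC X) :=
  AddMonoidHom.mk' (fun φ => ⟨fil f L φ.1, by
      simp [fil, pri], by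
      intro l₁ x l₂
      simp only [fil]
      exact Finset.sum_eq_zero fun q _ => φ.2.2.pri (f q) (f (q + 1)) l₁ x l₂⟩) (by
    intro φ ψ
    apply Subtype.ext
    funext l
    simp only [fil, AddSubgroup.coe_add, Pi.add_apply]
    rw [← Finset.sum_add_distrib]
    exact Finset.sum_congr rfl fun q _ => pri_add _ _ _ _ _)

end

/-! ## Abstract algebra -/

section
variable {A : Type} [AddCommGroup A]

/-- norm element -/
def Nm (t : AddMonoid.End A) : AddMonoid.End A := 1 + t + t * t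

/-- `∂ C = ∑ N_j P_j`, `∂ P_j = (t_j - 1) Q_j + ∑ N_i Y_{ji}` (modulo degenerate chains) -/
def Good {κ : Type} [Fintype κ] (d : AddMonoid.End A) (T : κ → AddMonoid.End A)
    (C : A →+ ℤ) : Prop :=
  ∃ (P Q : κ → (A →+ ℤ)) (Y : κ → κ → (A →+ ℤ)),
    (∀ φ, C (d φ) = ∑ j, P j (Nm (T j) φ)) ∧
    ∀ j φ, P j (d φ) = Q j ((T j - 1) φ) + ∑ i, Y j i (Nm (T i) φ)

/-- the relations between the operators -/
structure Rel {κ : Type} (d : AddMonoid.End A) (T : κ → AddMonoid.End A) (j : κ)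
    (F F' P P' : AddMonoid.End A) : Prop where
  dT : ∀ i, d * T i = T i * d
  TT : ∀ i k, T i * T k = T k * T i
  T3 : ∀ i, T i * T i * T i = 1
  Fd : F * d = P - 1 - d * F
  Fd' : F' * d = P' - 1 - d * F'
  FT : ∀ i, i ≠ j → F * T i = T i * F
  FT' : ∀ i, i ≠ j → F' * T i = T i * F'
  TP : T j * P = P
  TP' : T j * P' = P'
  FP' : F * P' = 0

/-- the operator dual to `C ↦ fill (N_j fill ((t_j - 1) C))` -/
def KK {κ : Type} (T : κ → AddMonoid.End A) (j : κ) (F F' : AddMonoid.End A) :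
    AddMonoid.End A := (T j - 1) * F * Nm (T j) * F'

end

/-- MODULE STEP -/
def S_STEP : Prop :=
  ∀ (A : Type) [AddCommGroup A] (κ : Type) [Fintype κ] [DecidableEq κ]
    (d : AddMonoid.End A) (T : κ → AddMonoid.End A) (j : κ) (F F' P P' : AddMonoid.End A),
    Rel d T j F F' P P' → ∀ C : A →+ ℤ, Good d T C → Good d T (C.comp (KK T j F F'))

/-- MODULE CLM: the value.  `φ = E'`, `α = a ∪ E'`, `lam = L ∪ E'`, `ε = e ∪ E'`. -/
def S_CLM : Prop :=
  ∀ (A : Type) [AddCommGroup A] (κ : Type) [Fintype κ] [DecidableEq κ]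
    (d : AddMonoid.End A) (T : κ → AddMonoid.End A) (j : κ) (F F' P P' : AddMonoid.End A),
    Rel d T j F F' P P' → ∀ C : A →+ ℤ, Good d T C →
    ∀ φ α lam ε χ χ' : A, (∀ i, T i φ = φ) → (∀ i, T i α = α) → (∀ i, i ≠ j → T i lam = lam) →
      T j lam = lam + φ + (3 : ℤ) • χ → α = d lam + (3 : ℤ) • χ' → (3 : ℤ) • ε = d α →
      ∃ k : ℤ, C (KK T j F F' ε) = C φ + 3 * k

/-- MODULE OPS: the operators on normalised cochains -/
def S_OPS : Prop :=
  ∀ (X : Type),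
    (∀ f : X → X, dN X * pN f = pN f * dN X) ∧
    (∀ f g : X → X, pN f * pN g = pN (g ∘ f)) ∧
    (dN X * dN X = 0) ∧
    (∀ (f : ℕ → X → X) (L : ℕ), fN f L * dN X = pN (f L) - pN (f 0) - dN X * fN f L) ∧
    (∀ (f : ℕ → X → X) (L : ℕ) (t : X → X), (∀ q x, f q (t x) = t (f q x)) →
      fN f L * pN t = pN t * fN f L) ∧
    (∀ (f : ℕ → X → X) (L : ℕ) (c : X → X), (∀ q x, c (f q x) = c x) → fN f L * pN c = 0)

/-- MODULE LOCP: locality of the prism -/
def S_LOCP : Prop :=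
  ∀ (X : Type) (f g : X → X) (l : List X) (φ : List X → ℤ),
    (∀ l' : List X, (∀ y ∈ l', ∃ x ∈ l, y = f x ∨ y = g x) → φ l' = 0) → pri f g φ l = 0

/-- MODULE CUP -/
def S_CUP : Prop :=
  ∀ (X : Type) (l : X → ZMod 3) (φ : List X → ℤ),
    (∀ k, del φ k = 0) →
      (∀ k, 3 * cup2 (e3 l) φ k = del (cup1 (la l) φ) k) ∧
      (∀ (u : X → ℤ) k, del (cup0 u φ) k = cup1 (fun x y => u y - u x) φ k)

/-- MODULE CUPN: normalised -/
def S_CUPN : Prop :=
  ∀ (X : Type) (l : X → ZMod 3) (φ : List X → ℤ), φ ∈ NorS X →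
    cup2 (e3 l) φ ∈ NorS X ∧ cup1 (la l) φ ∈ NorS X ∧
    (∀ u : X → ℤ, cup0 u φ ∈ NorS X) ∧ one0 ∈ NorS X ∧ (∀ k, del (one0 : List X → ℤ) k = 0)

/-- MODULE CUPD: the cup product with the 2-cocycle `e3 l` commutes with `del`, and pull backs;
arithmetic of the label cochains -/
def S_CUPD : Prop :=
  ∀ (X : Type) (l : X → ZMod 3),
    (∀ (φ : List X → ℤ), φ [] = 0 → ∀ k, del (cup2 (e3 l) φ) k = cup2 (e3 l) (del φ) k) ∧
    (∀ x y z, 3 * e3 l x y z = la l x y + la l y z - la l x z) ∧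
    (∀ x y, ∃ k : ℤ, la l x y = ((l y).val : ℤ) - ((l x).val : ℤ) + 3 * k) ∧
    (∀ (t : X → X) (c : ZMod 3), (∀ x, l (t x) = l x + c) → ∀ φ : List X → ℤ,
      pb t (cup2 (e3 l) φ) = cup2 (e3 l) (pb t φ) ∧ pb t (cup1 (la l) φ) = cup1 (la l) (pb t φ))

/-! ## Geometry -/

/-- basis vector number `r` (zero if `r ≥ n`) -/
noncomputable def eb (n r : ℕ) : EuclideanSpace ℂ (Fin n) :=
  WithLp.toLp 2 (fun k => if (k : ℕ) = r then 1 else 0)

open Classical in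
/-- rotation of the coordinate `j` towards `eb r` -/
noncomputable def rtt {N : ℕ → ℕ} (j r : ℕ) (θ : ℝ) (x : XX N) : XX N :=
  if h : ‖Real.cos θ • ((x j : EuclideanSpace ℂ (Fin (N j)))) + Real.sin θ • eb (N j) r‖ = 1 then
    Function.update x j ⟨_, mem_sphere_zero_iff_norm.2 h⟩ else x

/-- the steps: `fs j r L q = rtt j r (π q / (2 L))` -/
noncomputable def fs {N : ℕ → ℕ} (j r L : ℕ) (q : ℕ) : XX N → XX N :=
  rtt j r (Real.pi / 2 * ((q : ℝ) / (L : ℝ)))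

/-- the tuples whose points have zero coordinates number `≥ c j` in the sphere `j`, with mesh `≤ ε` -/
def Sm (N : ℕ → ℕ) (c : ℕ → ℕ) (ε : ℝ) : Set (List (XX N)) :=
  {l | (∀ x ∈ l, ∀ (j : ℕ) (r : Fin (N j)), c j ≤ (r : ℕ) →
      (x j : EuclideanSpace ℂ (Fin (N j))) r = 0) ∧
    ∀ x ∈ l, ∀ y ∈ l, ∀ j, dist (x j) (y j) ≤ ε}

/-- MODULE ROT: algebra of the rotations and twists -/
def S_ROT : Prop :=
  ∀ (N : ℕ → ℕ),
    (∀ i j (x : XX N), tt i (tt j x) = tt j (tt i x)) ∧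
    (∀ j (x : XX N), tt j (tt j (tt j x)) = x) ∧
    (∀ j r (x : XX N), rtt j r 0 x = x) ∧
    (∀ j r r' (θ : ℝ) (x : XX N), r < N j →
      rtt j r (Real.pi / 2) (rtt j r' θ x) = rtt j r (Real.pi / 2) x ∧
      rtt j r (Real.pi / 2) (tt j x) = rtt j r (Real.pi / 2) x) ∧
    (∀ i j r (θ : ℝ) (x : XX N), i ≠ j → rtt j r θ (tt i x) = tt i (rtt j r θ x))

/-- MODULE ROTM: metric part -/
def S_ROTM : Prop :=
  ∀ (N : ℕ → ℕ) (c : ℕ → ℕ) (ε : ℝ), 0 ≤ ε →
    (∀ (j : ℕ) (l : List (XX N)), l ∈ Sm N c ε → l.map (tt j) ∈ Sm N c ε) ∧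
    ∀ (j L q : ℕ), c j < N j → 0 < L → ∀ (l l' : List (XX N)), l ∈ Sm N c ε →
      (∀ y ∈ l', ∃ x ∈ l, y = fs j (c j) L q x ∨ y = fs j (c j) L (q + 1) x) →
      l' ∈ Sm N (Function.update c j (c j + 1)) (ε + 4 / L)

/-- supported in a set of tuples -/
def SupIn {X : Type} (C : NC X →+ ℤ) (S : Set (List X)) : Prop :=
  ∀ φ : NC X, (∀ l ∈ S, φ.1 l = 0) → C φ = 0

/-- the twists, as operators -/
noncomputable def TN (N : ℕ → ℕ) (J : Finset ℕ) (j : {j : ℕ // j ∈ J}) : AddMonoid.End (NC (XX N)) :=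
  pN (tt (j : ℕ))

/-- iterated cup product -/
def EE {X : Type} (labs : List (ℕ × (X → ZMod 3))) (φ : List X → ℤ) : List X → ℤ :=
  labs.foldr (fun p ψ => cup2 (e3 p.2) ψ) φ

/-- good labels -/
def LabOK (N : ℕ → ℕ) (J : Finset ℕ) (p : ℕ × (XX N → ZMod 3)) : Prop :=
  p.1 ∈ J ∧ ∀ j ∈ J, ∀ x, p.2 (tt j x) = p.2 x + if j = p.1 then 1 else 0

/-- MODULE CELL: one step on the product of spheres -/
def S_CELL : Prop :=
  ∀ (N : ℕ → ℕ) (J : Finset ℕ) (c : ℕ → ℕ) (ε : ℝ) (p : ℕ × (XX N → ZMod 3)) (L : ℕ)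
    (C : NC (XX N) →+ ℤ) (φ : NC (XX N)), 0 ≤ ε → 0 < L → LabOK N J p → c p.1 + 2 ≤ N p.1 →
    Good (dN (XX N)) (TN N J) C → SupIn C (Sm N c ε) →
    (∀ k, del φ.1 k = 0) → (∀ j ∈ J, pb (tt j) φ.1 = φ.1) →
    ∃ C' : NC (XX N) →+ ℤ, Good (dN (XX N)) (TN N J) C' ∧
      SupIn C' (Sm N (Function.update c p.1 (c p.1 + 2)) (ε + 8 / L)) ∧
      ∀ ε' : NC (XX N), ε'.1 = cup2 (e3 p.2) φ.1 → ∃ k : ℤ, C' ε' = C φ + 3 * k

/-- MODULE IND: the fundamental cycle -/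
def S_IND : Prop :=
  ∀ (N : ℕ → ℕ) (J : Finset ℕ) (labs : List (ℕ × (XX N → ZMod 3))),
    (∀ p ∈ labs, LabOK N J p) → (∀ j, 2 * (labs.map Prod.fst).count j + 1 ≤ N j) →
    ∀ ε : ℝ, 0 < ε → ∃ C : NC (XX N) →+ ℤ, Good (dN (XX N)) (TN N J) C ∧
      SupIn C {l | ∀ x ∈ l, ∀ y ∈ l, ∀ j, dist (x j) (y j) ≤ ε} ∧
      ∀ φ : NC (XX N), φ.1 = EE labs one0 → ∃ k : ℤ, C φ = 1 + 3 * k

/-- MODULE LAB: the labels of the functions -/
def S_LAB : Prop :=
  ∀ (N : ℕ → ℕ) (J : Finset ℕ) (j₀ : ℕ) (g : XX N → ℂ),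
    (∀ j ∈ J, ∀ x, g (tt j x) = (if j = j₀ then om else 1) * g x) →
    ∃ l : XX N → ZMod 3, (∀ j ∈ J, ∀ x, l (tt j x) = l x + if j = j₀ then 1 else 0) ∧
      ∀ (x y z : XX N) (δ : ℝ), e3 l x y z ≠ 0 → ‖g x - g y‖ ≤ δ → ‖g y - g z‖ ≤ δ →
        ‖g x - g z‖ ≤ δ → ‖g x‖ ≤ 3 * δ ∧ ‖g y‖ ≤ 3 * δ ∧ ‖g z‖ ≤ 3 * δ

/-- MODULE UNI: uniformity of the product -/
def S_UNI : Prop :=
  ∀ (N : ℕ → ℕ), (∀ V ∈ 𝓤 (XX N), ∃ ε : ℝ, 0 < ε ∧
      ∀ x y : XX N, (∀ j, dist (x j) (y j) ≤ ε) → (x, y) ∈ V) ∧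
    (∀ (g : XX N → ℂ), Continuous g → ∀ δ : ℝ, 0 < δ → ∃ V ∈ 𝓤 (XX N),
      ∀ x y, (x, y) ∈ V → ‖g x - g y‖ ≤ δ)

end Pool.OPP
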