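import Mathlib
import Pool.Agent.H91.OPP.TTB
import Pool.Agent.H65.OPP.STEP
import Pool.Agent.H65.OPP.CLM
import Pool.Agent.H33.OPP.OPS
import Pool.Agent.H33.OPP.LOCP
import Pool.Agent.H2.OPP.CUPD
import Pool.Agent.H2.OPP.LAB
import Pool.Agent.H2.OPP.TTF
import Pool.Agent.H62.OPP.ROTM
import Pool.Agent.H15.OPP.IND
import Pool.Agent.H4.OPP.CUP
import Pool.Agent.H4.OPP.CUPN
import Pool.Agent.H83.OPP.CELL
import Pool.Agent.H83.OPP.ROT
import Pool.Agent.H83.OPP.UNI

/-! The topological theorem `TTStmt`: assembly. -/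

set_option autoImplicit false

namespace Pool.OPP

theorem tt_thm : TTStmt :=
  ttf (ind (cell step clm ops locp (cup cupd) cupn cupd rot_thm rotm) cupn cupd) cupd cupn lab uni

end Pool.OPP
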